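import Mathlib
import Pool.Agent.R38.VetoP3

/-!
# A double veto interval graph which is not a veto interval graph

The graph has 18 vertices and 44 edges. The proof that it has no veto interval representation was
found by a SAT solver and is spelled out in the files `Pool.Agent.R38.VetoP1`, ..., `VetoP3`.
-/

set_option autoImplicit false

namespace Pool.Agent.Results.MP_db841c_co.DoubleVeto

/-- `G` has a veto interval representation: distinct triples `l a < v a < r a` such that distinct
vertices `a`, `b` are adjacent iff `v a < l b < r a < v b` or `v b < l a < r b < v a`. -/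
def IsVetoIntervalGraph {V : Type} (G : SimpleGraph V) : Prop :=
  ∃ l v r : V → ℝ, (∀ a, l a < v a ∧ v a < r a) ∧
    Function.Injective (fun a => (l a, v a, r a)) ∧
    ∀ a b, a ≠ b → (G.Adj a b ↔
      (v a < l b ∧ l b < r a ∧ r a < v b) ∨ (v b < l a ∧ l a < r b ∧ r b < v a))

/-- `G` has a double veto interval representation: distinct quadruples `l a < v a < w a < r a` such
that distinct vertices `a`, `b` are adjacent iff `w a < l b < r a < v b` or
`w b < l a < r b < v a`. -/
def IsDoubleVetoIntervalGraph {V : Type} (G : SimpleGraph V) : Prop :=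
  ∃ l v w r : V → ℝ, (∀ a, l a < v a ∧ v a < w a ∧ w a < r a) ∧
    Function.Injective (fun a => (l a, v a, w a, r a)) ∧
    ∀ a b, a ≠ b → (G.Adj a b ↔
      (w a < l b ∧ l b < r a ∧ r a < v b) ∨ (w b < l a ∧ l a < r b ∧ r b < v a))

/-- The left endpoints. -/
def L : Fin 18 → ℕ := ![50, 8, 41, 16, 30, 7, 35, 25, 62, 21, 5, 39, 2, 15, 0, 18, 14, 12]

/-- The first marks. -/
def V : Fin 18 → ℕ := ![58, 19, 54, 34, 55, 9, 60, 38, 68, 45, 6, 47, 3, 23, 1, 28, 27, 32]

/-- The second marks. -/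
def W : Fin 18 → ℕ := ![59, 20, 61, 43, 56, 10, 65, 49, 69, 46, 13, 48, 4, 24, 11, 29, 36, 33]

/-- The right endpoints. -/
def R : Fin 18 → ℕ := ![66, 44, 67, 63, 64, 31, 71, 57, 70, 53, 22, 52, 17, 37, 26, 51, 42, 40]

/-- adjacency in the graph -/
def adj (a b : Fin 18) : Prop :=
  (W a < L b ∧ L b < R a ∧ R a < V b) ∨ (W b < L a ∧ L a < R b ∧ R b < V a)

instance : DecidableRel adj := fun _ _ => inferInstanceAs (Decidable (_ ∨ _))

lemma order : ∀ a, L a < V a ∧ V a < W a ∧ W a < R a := by decide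

lemma inj : ∀ a b, L a = L b → a = b := by decide

/-- The graph. -/
def G : SimpleGraph (Fin 18) where
  Adj := adj
  symm := ⟨fun _ _ h => h.symm⟩
  loopless := ⟨fun a h => by
    have h1 := order a
    rcases h with h | h <;> omega⟩

lemma double : IsDoubleVetoIntervalGraph G := by
  refine ⟨fun a => (L a : ℝ), fun a => (V a : ℝ), fun a => (W a : ℝ), fun a => (R a : ℝ), ?_, ?_, ?_⟩
  · intro a
    have h := order a
    simp only [Nat.cast_lt]
    exact h
  · intro a b h
    simp only [Prod.mk.injEq] at h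
    exact inj a b (by exact_mod_cast h.1)
  · intro a b _
    show adj a b ↔ _
    unfold adj
    simp only [Nat.cast_lt]

/-- The facts used in the proof. -/
lemma mkH (l v r : Fin 18 → ℝ) (h1 : ∀ a, l a < v a ∧ v a < r a)
    (h2 : ∀ a b, adj a b → a ≠ b →
      (v a < l b ∧ l b < r a ∧ r a < v b) ∨ (v b < l a ∧ l a < r b ∧ r b < v a))
    (h3 : ∀ a b, ¬ adj a b → a ≠ b → v a < l b → l b < r a → r a < v b → False)
    (hw : v 12 < l 13 ∧ l 13 < r 12 ∧ r 12 < v 13) :
    Pool.Agent.R38.VetoProof.H (fun k => l (Fin.ofNat 18 k)) (fun k => v (Fin.ofNat 18 k))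
      (fun k => r (Fin.ofNat 18 k)) where
  w := hw
  u0_0 := (h1 0).1
  u0_1 := (h1 0).2
  u1_0 := (h1 1).1
  u1_1 := (h1 1).2
  u2_1 := (h1 2).2
  u3_0 := (h1 3).1
  u3_1 := (h1 3).2
  u4_0 := (h1 4).1
  u4_1 := (h1 4).2
  u5_0 := (h1 5).1
  u5_1 := (h1 5).2
  u6_0 := (h1 6).1
  u6_1 := (h1 6).2
  u7_0 := (h1 7).1
  u7_1 := (h1 7).2
  u8_0 := (h1 8).1
  u8_1 := (h1 8).2
  u9_0 := (h1 9).1
  u9_1 := (h1 9).2
  u10_0 := (h1 10).1
  u10_1 := (h1 10).2
  u11_0 := (h1 11).1
  u11_1 := (h1 11).2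
  u12_0 := (h1 12).1
  u13_0 := (h1 13).1
  u13_1 := (h1 13).2
  u14_0 := (h1 14).1
  u14_1 := (h1 14).2
  u15_0 := (h1 15).1
  u15_1 := (h1 15).2
  u16_0 := (h1 16).1
  u16_1 := (h1 16).2
  u17_0 := (h1 17).1
  u17_1 := (h1 17).2
  n0_3 := h3 0 3 (by decide) (by decide)
  n0_4 := h3 0 4 (by decide) (by decide)
  n0_13 := h3 0 13 (by decide) (by decide)
  n0_17 := h3 0 17 (by decide) (by decide)
  n1_7 := h3 1 7 (by decide) (by decide)
  n1_8 := h3 1 8 (by decide) (by decide)
  n1_16 := h3 1 16 (by decide) (by decide)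
  n2_5 := h3 2 5 (by decide) (by decide)
  n2_13 := h3 2 13 (by decide) (by decide)
  n2_17 := h3 2 17 (by decide) (by decide)
  n3_1 := h3 3 1 (by decide) (by decide)
  n4_2 := h3 4 2 (by decide) (by decide)
  n4_16 := h3 4 16 (by decide) (by decide)
  n4_17 := h3 4 17 (by decide) (by decide)
  n5_6 := h3 5 6 (by decide) (by decide)
  n5_13 := h3 5 13 (by decide) (by decide)
  n5_15 := h3 5 15 (by decide) (by decide)
  n5_16 := h3 5 16 (by decide) (by decide)
  n6_3 := h3 6 3 (by decide) (by decide)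
  n6_16 := h3 6 16 (by decide) (by decide)
  n7_1 := h3 7 1 (by decide) (by decide)
  n7_15 := h3 7 15 (by decide) (by decide)
  n8_1 := h3 8 1 (by decide) (by decide)
  n8_6 := h3 8 6 (by decide) (by decide)
  n8_7 := h3 8 7 (by decide) (by decide)
  n8_16 := h3 8 16 (by decide) (by decide)
  n8_17 := h3 8 17 (by decide) (by decide)
  n9_8 := h3 9 8 (by decide) (by decide)
  n9_17 := h3 9 17 (by decide) (by decide)
  n10_1 := h3 10 1 (by decide) (by decide)
  n10_8 := h3 10 8 (by decide) (by decide)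
  n10_11 := h3 10 11 (by decide) (by decide)
  n10_17 := h3 10 17 (by decide) (by decide)
  n11_5 := h3 11 5 (by decide) (by decide)
  n11_10 := h3 11 10 (by decide) (by decide)
  n11_13 := h3 11 13 (by decide) (by decide)
  n12_0 := h3 12 0 (by decide) (by decide)
  n12_2 := h3 12 2 (by decide) (by decide)
  n12_8 := h3 12 8 (by decide) (by decide)
  n12_9 := h3 12 9 (by decide) (by decide)
  n12_15 := h3 12 15 (by decide) (by decide)
  n13_2 := h3 13 2 (by decide) (by decide)
  n13_8 := h3 13 8 (by decide) (by decide)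
  n13_11 := h3 13 11 (by decide) (by decide)
  n14_4 := h3 14 4 (by decide) (by decide)
  n14_13 := h3 14 13 (by decide) (by decide)
  n15_11 := h3 15 11 (by decide) (by decide)
  n15_12 := h3 15 12 (by decide) (by decide)
  n16_4 := h3 16 4 (by decide) (by decide)
  n16_5 := h3 16 5 (by decide) (by decide)
  n16_6 := h3 16 6 (by decide) (by decide)
  n17_0 := h3 17 0 (by decide) (by decide)
  n17_2 := h3 17 2 (by decide) (by decide)
  n17_4 := h3 17 4 (by decide) (by decide)
  n17_9 := h3 17 9 (by decide) (by decide)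
  n17_10 := h3 17 10 (by decide) (by decide)
  e0 := h2 0 7 (by decide) (by decide)
  e1 := h2 0 8 (by decide) (by decide)
  e2 := h2 0 9 (by decide) (by decide)
  e3 := h2 0 11 (by decide) (by decide)
  e4 := h2 0 15 (by decide) (by decide)
  e5 := h2 1 2 (by decide) (by decide)
  e6 := h2 1 4 (by decide) (by decide)
  e7 := h2 1 6 (by decide) (by decide)
  e8 := h2 1 9 (by decide) (by decide)
  e9 := h2 1 11 (by decide) (by decide)
  e10 := h2 1 12 (by decide) (by decide)
  e11 := h2 2 8 (by decide) (by decide)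
  e12 := h2 2 15 (by decide) (by decide)
  e13 := h2 2 16 (by decide) (by decide)
  e14 := h2 3 5 (by decide) (by decide)
  e15 := h2 3 8 (by decide) (by decide)
  e16 := h2 3 10 (by decide) (by decide)
  e17 := h2 3 12 (by decide) (by decide)
  e18 := h2 3 14 (by decide) (by decide)
  e19 := h2 4 5 (by decide) (by decide)
  e20 := h2 4 8 (by decide) (by decide)
  e21 := h2 4 13 (by decide) (by decide)
  e22 := h2 4 15 (by decide) (by decide)
  e23 := h2 5 7 (by decide) (by decide)
  e24 := h2 5 9 (by decide) (by decide)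
  e25 := h2 5 17 (by decide) (by decide)
  e26 := h2 6 13 (by decide) (by decide)
  e27 := h2 6 15 (by decide) (by decide)
  e28 := h2 6 17 (by decide) (by decide)
  e29 := h2 7 13 (by decide) (by decide)
  e30 := h2 7 14 (by decide) (by decide)
  e31 := h2 9 10 (by decide) (by decide)
  e32 := h2 9 14 (by decide) (by decide)
  e33 := h2 10 13 (by decide) (by decide)
  e34 := h2 10 15 (by decide) (by decide)
  e35 := h2 10 16 (by decide) (by decide)
  e36 := h2 11 16 (by decide) (by decide)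
  e37 := h2 11 17 (by decide) (by decide)
  e39 := h2 12 16 (by decide) (by decide)
  e40 := h2 12 17 (by decide) (by decide)
  e41 := h2 14 15 (by decide) (by decide)
  e42 := h2 14 16 (by decide) (by decide)
  e43 := h2 14 17 (by decide) (by decide)

lemma noRep (l v r : Fin 18 → ℝ) (h1 : ∀ a, l a < v a ∧ v a < r a)
    (h2 : ∀ a b, adj a b → a ≠ b →
      (v a < l b ∧ l b < r a ∧ r a < v b) ∨ (v b < l a ∧ l a < r b ∧ r b < v a))
    (h3 : ∀ a b, ¬ adj a b → a ≠ b → v a < l b → l b < r a → r a < v b → False)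
    (hw : v 12 < l 13 ∧ l 13 < r 12 ∧ r 12 < v 13) : False :=
  Pool.Agent.R38.VetoProof.L691 (mkH l v r h1 h2 h3 hw)

lemma notVeto : ¬ IsVetoIntervalGraph G := by
  rintro ⟨l, v, r, h1, -, h⟩
  have h2 : ∀ a b, adj a b → a ≠ b →
      (v a < l b ∧ l b < r a ∧ r a < v b) ∨ (v b < l a ∧ l a < r b ∧ r b < v a) :=
    fun a b hab hne => (h a b hne).mp hab
  have h3 : ∀ a b, ¬ adj a b → a ≠ b → v a < l b → l b < r a → r a < v b → False :=
    fun a b hab hne e1 e2 e3 => hab ((h a b hne).mpr (Or.inl ⟨e1, e2, e3⟩))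
  have symm : ∀ a b, adj a b → adj b a := fun a b h => h.symm
  rcases h2 12 13 (by decide) (by decide) with hw | hw
  · exact noRep l v r h1 h2 h3 hw
  · -- reflection
    refine noRep (fun a => - r a) (fun a => - v a) (fun a => - l a) (fun a => ?_) ?_ ?_ ?_
    · have := h1 a
      exact ⟨neg_lt_neg this.2, neg_lt_neg this.1⟩
    · intro a b hab hne
      rcases h2 a b hab hne with ⟨e1, e2, e3⟩ | ⟨e1, e2, e3⟩
      · exact Or.inr ⟨neg_lt_neg e3, neg_lt_neg e2, neg_lt_neg e1⟩
      · exact Or.inl ⟨neg_lt_neg e3, neg_lt_neg e2, neg_lt_neg e1⟩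
    · intro a b hab hne e1 e2 e3
      exact h3 b a (fun h' => hab (symm b a h')) hne.symm (neg_lt_neg_iff.mp e3)
        (neg_lt_neg_iff.mp e2) (neg_lt_neg_iff.mp e1)
    · obtain ⟨e1, e2, e3⟩ := hw
      exact ⟨neg_lt_neg e3, neg_lt_neg e2, neg_lt_neg e1⟩

/-- There is a double veto interval graph which is not a veto interval graph. -/
theorem result : ∃ G : SimpleGraph (Fin 18), IsDoubleVetoIntervalGraph G ∧ ¬ IsVetoIntervalGraph G :=
  ⟨G, double, notVeto⟩

end Pool.Agent.Results.MP_db841c_co.DoubleVeto
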